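import Mathlib
import Pool.Agent.H336Z.GW.Main

namespace Pool.Agent.Results.MP_5317c0_an.AllParts

open Pool.Agent.H336Z.GW

universe u v w

/-- Parts (a) and (b) have a negative answer (one system serves for both), part (c) has a positive
answer. -/
theorem result :
    (∃ (Y : Type) (_ : TopologicalSpace Y) (_ : CompactSpace Y) (_ : T2Space Y) (S : Y ≃ₜ Y),
      TopologicalSpace.MetrizableSpace Y ∧ RecurrentTransitive S ∧ IsHilbertSystem S ∧
      ¬ HilbertRepresentable.{0, v} S ∧
      ¬ ∃ (X : Type u) (_ : TopologicalSpace X) (_ : CompactSpace X) (_ : T2Space X) (T : X ≃ₜ X),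
        HilbertRepresentable.{u, v} T ∧ IsGroupFactor T S) ∧
    ∀ (Y : Type w) [TopologicalSpace Y] [CompactSpace Y] [T2Space Y] (S : Y ≃ₜ Y),
      TopologicalSpace.MetrizableSpace Y → RecurrentTransitive S → IsHilbertSystem S →
      ∃ (X : Type) (_ : TopologicalSpace X) (_ : CompactSpace X) (_ : T2Space X) (T : X ≃ₜ X)
        (π : X → Y), HilbertRepresentable.{0, 0} T ∧ IsFactorMap T S π ∧ AlmostOneOne π := by
  refine ⟨⟨YY, inferInstance, inferInstance, inferInstance, TY, metrizable_YY, YY_recurrent,
    YY_hilbert, fun h => ?_, ?_⟩, fun Y _ _ _ S _ _ hS => exists_almostOneOne hS⟩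
  · exact not_subsingleton_YY
      (subsingleton_of_collapse id_factor (collapse_of_hilbertRepresentable h))
  · rintro ⟨X, _, _, _, T, h, hg⟩
    exact not_subsingleton_YY
      (subsingleton_of_collapse id_factor (collapse_of_groupFactor h hg))

end Pool.Agent.Results.MP_5317c0_an.AllParts
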